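import Mathlib

/-!
# The locality tensor product need not be a locality vector space

For every field `K` we construct a locality vector space `(E, T)` over `K` (of dimension 14, and with
`T x x` only for `x = 0`) and a decomposition `E = V₀ ⊕ W₀` such that for all linear subspaces
`V ⊇ V₀`, `W ⊇ W₀` of `E` (for instance `V = V₀`, `W = W₀`, or `V = W = E`) the locality tensor product
`V ⊗_T W` with its quotient locality relation is not a locality vector space: there is a subset whose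
polar set is not closed under addition.
-/

set_option autoImplicit false

open scoped TensorProduct

namespace Pool.Agent.Results.MP_16c542_al.LocalityTensor

universe u

/-- The polar set `S^⊤ = {x | x ⊤ y for all y ∈ S}` of a subset `S`, for a relation `T` (written `⊤`
in words). -/
def polar {X : Type u} (T : X → X → Prop) (S : Set X) : Set X := {x | ∀ y ∈ S, T x y}

/-- `(E, T)` is a locality vector space over the field `K`: the relation `T` is symmetric and the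
polar set of every subset of `E` is (the underlying set of) a linear subspace of `E`. -/
structure IsLocalityVectorSpace (K : Type u) {E : Type u} [Field K] [AddCommGroup E] [Module K E]
    (T : E → E → Prop) : Prop where
  symm : ∀ x y : E, T x y → T y x
  polar_subspace : ∀ S : Set E, ∃ P : Submodule K E, (P : Set E) = polar T S

section Tensor

variable (K : Type u) {E : Type u} [Field K] [AddCommGroup E] [Module K E]

/-- The subspace `I_bil` of the free vector space `K(V × W)` on `V × W` spanned by the usual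
bilinearity relations `(a+b,w) - (a,w) - (b,w)`, `(v,a+b) - (v,a) - (v,b)`, `(kv,w) - k(v,w)`,
`(v,kw) - k(v,w)`. -/
noncomputable def Ibil (V W : Submodule K E) : Submodule K ((V × W) →₀ K) :=
  Submodule.span K
    ({f | ∃ (a b : V) (w : W),
        f = Finsupp.single (a + b, w) 1 - Finsupp.single (a, w) 1 - Finsupp.single (b, w) 1} ∪
     {f | ∃ (v : V) (a b : W),
        f = Finsupp.single (v, a + b) 1 - Finsupp.single (v, a) 1 - Finsupp.single (v, b) 1} ∪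
     {f | ∃ (k : K) (v : V) (w : W),
        f = Finsupp.single (k • v, w) 1 - k • Finsupp.single (v, w) 1} ∪
     {f | ∃ (k : K) (v : V) (w : W),
        f = Finsupp.single (v, k • w) 1 - k • Finsupp.single (v, w) 1})

/-- The set `V ×_T W = {(v,w) ∈ V × W | T v w}` of independent pairs, as a type. -/
abbrev LocPairs (T : E → E → Prop) (V W : Submodule K E) : Type u :=
  {p : V × W // T (p.1 : E) (p.2 : E)}

/-- The inclusion `K(V ×_T W) → K(V × W)` of free vector spaces. -/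
noncomputable def freeIncl (T : E → E → Prop) (V W : Submodule K E) :
    (LocPairs K T V W →₀ K) →ₗ[K] ((V × W) →₀ K) :=
  Finsupp.lmapDomain K K Subtype.val

/-- The locality tensor product `V ⊗_T W = K(V ×_T W) / (K(V ×_T W) ∩ I_bil)`. -/
abbrev LocTensor (T : E → E → Prop) (V W : Submodule K E) : Type u :=
  (LocPairs K T V W →₀ K) ⧸ (Ibil K V W).comap (freeIncl K T V W)

/-- The element `v ⊗ w` of `V ⊗_T W`, defined when `T v w`: the class of the pair `(v,w)`. -/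
noncomputable def tmul {T : E → E → Prop} {V W : Submodule K E} (v : V) (w : W)
    (h : T (v : E) (w : E)) : LocTensor K T V W :=
  Submodule.Quotient.mk (Finsupp.single ⟨(v, w), h⟩ 1)

/-- The quotient locality relation on `V ⊗_T W`: `X` and `Y` are related iff one can write
`X = ∑ᵢ vᵢ ⊗ wᵢ` and `Y = ∑ⱼ v'ⱼ ⊗ w'ⱼ` with `(vᵢ,wᵢ), (v'ⱼ,w'ⱼ) ∈ V ×_T W` such that for all `i, j`
the four vectors `vᵢ, wᵢ, v'ⱼ, w'ⱼ` are pairwise independent for `T`. -/
def QuotLoc (T : E → E → Prop) (V W : Submodule K E) (X Y : LocTensor K T V W) : Prop :=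
  ∃ (m n : ℕ) (v : Fin m → V) (w : Fin m → W) (v' : Fin n → V) (w' : Fin n → W)
    (h : ∀ i, T (v i : E) (w i : E)) (h' : ∀ j, T (v' j : E) (w' j : E)),
    X = ∑ i, tmul K (v i) (w i) (h i) ∧
    Y = ∑ j, tmul K (v' j) (w' j) (h' j) ∧
    ∀ i j, T (v i : E) (v' j : E) ∧ T (v i : E) (w' j : E) ∧
      T (w i : E) (v' j : E) ∧ T (w i : E) (w' j : E)

/-! ### The map from the locality tensor product to the usual tensor product -/

/-- The linear map `K(V × W) → V ⊗ W`. -/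
noncomputable def toTensor (V W : Submodule K E) : ((V × W) →₀ K) →ₗ[K] (V ⊗[K] W) :=
  Finsupp.linearCombination K (fun p : V × W => p.1 ⊗ₜ[K] p.2)

theorem toTensor_single (V W : Submodule K E) (v : V) (w : W) :
    toTensor K V W (Finsupp.single (v, w) 1) = v ⊗ₜ[K] w := by
  simp [toTensor]

theorem Ibil_le_ker (V W : Submodule K E) : Ibil K V W ≤ LinearMap.ker (toTensor K V W) := by
  refine Submodule.span_le.2 ?_
  rintro f (((⟨a, b, w, rfl⟩ | ⟨v, a, b, rfl⟩) | ⟨k, v, w, rfl⟩) | ⟨k, v, w, rfl⟩)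
  · simp only [SetLike.mem_coe, LinearMap.mem_ker, map_sub, toTensor_single,
      TensorProduct.add_tmul]
    abel
  · simp only [SetLike.mem_coe, LinearMap.mem_ker, map_sub, toTensor_single,
      TensorProduct.tmul_add]
    abel
  · simp only [SetLike.mem_coe, LinearMap.mem_ker, map_sub, map_smul, toTensor_single,
      TensorProduct.smul_tmul']
    abel
  · simp only [SetLike.mem_coe, LinearMap.mem_ker, map_sub, map_smul, toTensor_single,
      TensorProduct.tmul_smul]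
    abel

/-- The inverse direction `V ⊗ W → K(V × W) / I_bil`. -/
noncomputable def ofTensor (V W : Submodule K E) :
    (V ⊗[K] W) →ₗ[K] (((V × W) →₀ K) ⧸ Ibil K V W) :=
  TensorProduct.lift (LinearMap.mk₂ K
    (fun (v : V) (w : W) => (Ibil K V W).mkQ (Finsupp.single (v, w) 1))
    (by
      intro a b w
      rw [← map_add, ← sub_eq_zero, ← map_sub, Submodule.mkQ_apply, Submodule.Quotient.mk_eq_zero]
      refine Submodule.subset_span (Or.inl (Or.inl (Or.inl ⟨a, b, w, ?_⟩)))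
      abel)
    (by
      intro k v w
      rw [← map_smul, ← sub_eq_zero, ← map_sub, Submodule.mkQ_apply, Submodule.Quotient.mk_eq_zero]
      exact Submodule.subset_span (Or.inl (Or.inr ⟨k, v, w, rfl⟩)))
    (by
      intro v a b
      rw [← map_add, ← sub_eq_zero, ← map_sub, Submodule.mkQ_apply, Submodule.Quotient.mk_eq_zero]
      refine Submodule.subset_span (Or.inl (Or.inl (Or.inr ⟨v, a, b, ?_⟩)))
      abel)
    (by
      intro k v w
      rw [← map_smul, ← sub_eq_zero, ← map_sub, Submodule.mkQ_apply, Submodule.Quotient.mk_eq_zero]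
      exact Submodule.subset_span (Or.inr ⟨k, v, w, rfl⟩)))

theorem ofTensor_comp_toTensor (V W : Submodule K E) :
    (ofTensor K V W).comp (toTensor K V W) = (Ibil K V W).mkQ := by
  refine Finsupp.lhom_ext' fun p => LinearMap.ext_ring ?_
  obtain ⟨v, w⟩ := p
  simp only [LinearMap.comp_apply, Finsupp.lsingle_apply, toTensor_single]
  simp [ofTensor]

theorem ker_toTensor (V W : Submodule K E) : LinearMap.ker (toTensor K V W) = Ibil K V W := by
  refine le_antisymm ?_ (Ibil_le_ker K V W)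
  intro f hf
  have h := LinearMap.congr_fun (ofTensor_comp_toTensor K V W) f
  rw [LinearMap.comp_apply, LinearMap.mem_ker.1 hf, map_zero] at h
  exact (Submodule.Quotient.mk_eq_zero _).1 h.symm

/-- The canonical linear map `V ⊗_T W → V ⊗ W`. -/
noncomputable def incl (T : E → E → Prop) (V W : Submodule K E) :
    LocTensor K T V W →ₗ[K] (V ⊗[K] W) :=
  Submodule.liftQ _ ((toTensor K V W).comp (freeIncl K T V W)) (by
    intro f hf
    exact Ibil_le_ker K V W hf)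

theorem incl_tmul {T : E → E → Prop} {V W : Submodule K E} (v : V) (w : W)
    (h : T (v : E) (w : E)) : incl K T V W (tmul K v w h) = v ⊗ₜ[K] w := by
  simp only [incl, tmul]
  rw [Submodule.liftQ_apply]
  simp [freeIncl, toTensor_single]

theorem incl_injective (T : E → E → Prop) (V W : Submodule K E) :
    Function.Injective (incl K T V W) := by
  rw [← LinearMap.ker_eq_bot, incl, Submodule.ker_liftQ_eq_bot]
  intro f hf
  have : freeIncl K T V W f ∈ LinearMap.ker (toTensor K V W) := hf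
  rw [ker_toTensor] at this
  exact this

end Tensor

/-! ### A general criterion -/

section Criterion

variable {K : Type u} {E : Type u} [Field K] [AddCommGroup E] [Module K E]

theorem isLocality_of {T : E → E → Prop} (symm : ∀ x y, T x y → T y x) (zero : ∀ x, T x 0)
    (add : ∀ x y z, T x y → T x z → T x (y + z)) (smul : ∀ (k : K) x y, T x y → T x (k • y)) :
    IsLocalityVectorSpace K T where
  symm := symm
  polar_subspace S :=
    ⟨{ carrier := polar T S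
       add_mem' := fun ha hb y hy => symm _ _ (add _ _ _ (symm _ _ (ha y hy))
          (symm _ _ (hb y hy)))
       zero_mem' := fun y _ => symm _ _ (zero y)
       smul_mem' := fun k _ ha y hy => symm _ _ (smul k _ _ (symm _ _ (ha y hy))) }, rfl⟩

theorem sum_mem_rel {T : E → E → Prop} (zero : ∀ x, T x 0)
    (add : ∀ x y z, T x y → T x z → T x (y + z)) (smul : ∀ (k : K) x y, T x y → T x (k • y))
    {ι : Type} (s : Finset ι) (c : ι → K) (v : ι → E) (x : E) (h : ∀ i, T x (v i)) :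
    T x (∑ i ∈ s, c i • v i) := by
  classical
  induction s using Finset.induction_on with
  | empty => simpa using zero x
  | insert a s ha ih =>
    rw [Finset.sum_insert ha]
    exact add _ _ _ (smul _ _ _ (h a)) ih

end Criterion

/-! ### The two auxiliary relations on `D = K^7` -/

/-- The space `K^7`; the coordinates are written `(t, p, q, r, s, a, b)`. -/
abbrev D (K : Type u) : Type u := K × K × K × K × K × K × K

section Aux

variable {K : Type u} [Field K]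

/-- The first auxiliary relation on `K^7`. -/
def R (x y : D K) : Prop :=
  match x, y with
  | (t, p, q, r, s, a, b), (t', p', q', r', s', a', b') =>
    (t = 0 ∧ p = 0 ∧ q = 0 ∧ r = 0 ∧ s = 0 ∧ a = 0 ∧ b = 0) ∨
    (t' = 0 ∧ p' = 0 ∧ q' = 0 ∧ r' = 0 ∧ s' = 0 ∧ a' = 0 ∧ b' = 0) ∨
    ((r = 0 ∧ s = 0 ∧ b = 0 ∧ r' = 0 ∧ s' = 0 ∧ b' = 0) ∧
      ((t = 0 ∧ p = 0 ∧ q = 0) ∨ (t' = 0 ∧ p' = 0 ∧ q' = 0) ∨
        (¬ (p = 0 ∧ q = 0) ∧ ∃ c : K, c ≠ 0 ∧ t' = c * t ∧ p' = c * p ∧ q' = c * q))) ∨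
    ((p = 0 ∧ q = 0 ∧ a = 0 ∧ p' = 0 ∧ q' = 0 ∧ a' = 0) ∧
      ((t = 0 ∧ r = 0 ∧ s = 0) ∨ (t' = 0 ∧ r' = 0 ∧ s' = 0) ∨
        (¬ (r = 0 ∧ s = 0) ∧ ∃ c : K, c ≠ 0 ∧ t' = c * t ∧ r' = c * r ∧ s' = c * s))) ∨
    ((p = 0 ∧ q = 0 ∧ r = 0 ∧ s = 0 ∧ a = 0 ∧ b = 0) ∧
      (t' = 0 ∧ p' = 0 ∧ q' = 0 ∧ r' = 0 ∧ s' = 0)) ∨
    ((t = 0 ∧ p = 0 ∧ q = 0 ∧ r = 0 ∧ s = 0) ∧
      (p' = 0 ∧ q' = 0 ∧ r' = 0 ∧ s' = 0 ∧ a' = 0 ∧ b' = 0))

/-- The second auxiliary relation on `K^7`, the irreflexive part of the first one. -/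
def R' (x y : D K) : Prop :=
  match x, y with
  | (t, p, q, r, s, a, b), (t', p', q', r', s', a', b') =>
    (t = 0 ∧ p = 0 ∧ q = 0 ∧ r = 0 ∧ s = 0 ∧ a = 0 ∧ b = 0) ∨
    (t' = 0 ∧ p' = 0 ∧ q' = 0 ∧ r' = 0 ∧ s' = 0 ∧ a' = 0 ∧ b' = 0) ∨
    ((r = 0 ∧ s = 0 ∧ b = 0 ∧ r' = 0 ∧ s' = 0 ∧ b' = 0) ∧
      ((t = 0 ∧ p = 0 ∧ q = 0 ∧ a' = 0) ∨ (t' = 0 ∧ p' = 0 ∧ q' = 0 ∧ a = 0))) ∨
    ((p = 0 ∧ q = 0 ∧ a = 0 ∧ p' = 0 ∧ q' = 0 ∧ a' = 0) ∧
      ((t = 0 ∧ r = 0 ∧ s = 0 ∧ b' = 0) ∨ (t' = 0 ∧ r' = 0 ∧ s' = 0 ∧ b = 0))) ∨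
    ((p = 0 ∧ q = 0 ∧ r = 0 ∧ s = 0 ∧ a = 0 ∧ b = 0) ∧
      (t' = 0 ∧ p' = 0 ∧ q' = 0 ∧ r' = 0 ∧ s' = 0)) ∨
    ((t = 0 ∧ p = 0 ∧ q = 0 ∧ r = 0 ∧ s = 0) ∧
      (p' = 0 ∧ q' = 0 ∧ r' = 0 ∧ s' = 0 ∧ a' = 0 ∧ b' = 0))

theorem R_symm (x y : D K) : R x y → R y x := by
  obtain ⟨t, p, q, r, s, a, b⟩ := x
  obtain ⟨t', p', q', r', s', a', b'⟩ := y
  simp only [R]
  rintro (h | h | ⟨h, (h' | h' | ⟨h', c, hc, h1, h2, h3⟩)⟩ |
    ⟨h, (h' | h' | ⟨h', c, hc, h1, h2, h3⟩)⟩ | ⟨h, h'⟩ | ⟨h, h'⟩)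
  · grind
  · grind
  · grind
  · grind
  · right; right; left
    refine ⟨by grind, Or.inr (Or.inr ⟨by grind, c⁻¹, by simp [hc], ?_, ?_, ?_⟩)⟩ <;>
      (subst h1 h2 h3; field_simp)
  · grind
  · grind
  · right; right; right; left
    refine ⟨by grind, Or.inr (Or.inr ⟨by grind, c⁻¹, by simp [hc], ?_, ?_, ?_⟩)⟩ <;>
      (subst h1 h2 h3; field_simp)
  · grind
  · grind

theorem R_zero (x : D K) : R x 0 := by
  obtain ⟨t, p, q, r, s, a, b⟩ := x
  right; left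
  simp

theorem R_smul (k : K) (x y : D K) : R x y → R x (k • y) := by
  obtain ⟨t, p, q, r, s, a, b⟩ := x
  obtain ⟨t', p', q', r', s', a', b'⟩ := y
  simp only [R, Prod.smul_mk, smul_eq_mul]
  by_cases hk : k = 0
  · subst hk; simp
  rintro (h | h | ⟨h, (h' | h' | ⟨h', c, hc, h1, h2, h3⟩)⟩ |
    ⟨h, (h' | h' | ⟨h', c, hc, h1, h2, h3⟩)⟩ | ⟨h, h'⟩ | ⟨h, h'⟩)
  · grind
  · grind
  · grind
  · grind
  · right; right; left
    refine ⟨by grind, Or.inr (Or.inr ⟨by grind, k * c, by simp [hc, hk], ?_, ?_, ?_⟩)⟩ <;>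
      (subst h1 h2 h3; ring)
  · grind
  · grind
  · right; right; right; left
    refine ⟨by grind, Or.inr (Or.inr ⟨by grind, k * c, by simp [hc, hk], ?_, ?_, ?_⟩)⟩ <;>
      (subst h1 h2 h3; ring)
  · grind
  · grind

theorem R_add (x y z : D K) : R x y → R x z → R x (y + z) := by
  obtain ⟨t, p, q, r, s, a, b⟩ := x
  obtain ⟨t', p', q', r', s', a', b'⟩ := y
  obtain ⟨t'', p'', q'', r'', s'', a'', b''⟩ := z
  rw [Prod.mk_add_mk, Prod.mk_add_mk, Prod.mk_add_mk, Prod.mk_add_mk, Prod.mk_add_mk,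
    Prod.mk_add_mk]
  simp only [R]
  rintro (h | h | ⟨h, (h' | h' | ⟨h', c, hc, h1, h2, h3⟩)⟩ |
    ⟨h, (h' | h' | ⟨h', c, hc, h1, h2, h3⟩)⟩ | ⟨h, h'⟩ | ⟨h, h'⟩) <;>
  rintro (g | g | ⟨g, (g' | g' | ⟨g', d, hd, g1, g2, g3⟩)⟩ |
    ⟨g, (g' | g' | ⟨g', d, hd, g1, g2, g3⟩)⟩ | ⟨g, g'⟩ | ⟨g, g'⟩) <;>
  try grind
  · right; right; left
    refine ⟨by grind, ?_⟩
    by_cases hcd : c + d = 0
    · right; left
      refine ⟨?_, ?_, ?_⟩ <;> subst h1 h2 h3 g1 g2 g3 <;> rw [← add_mul, hcd, zero_mul]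
    · right; right
      refine ⟨h', c + d, hcd, ?_, ?_, ?_⟩ <;> subst h1 h2 h3 g1 g2 g3 <;> ring
  · right; right; right; left
    refine ⟨by grind, ?_⟩
    by_cases hcd : c + d = 0
    · right; left
      refine ⟨?_, ?_, ?_⟩ <;> subst h1 h2 h3 g1 g2 g3 <;> rw [← add_mul, hcd, zero_mul]
    · right; right
      refine ⟨h', c + d, hcd, ?_, ?_, ?_⟩ <;> subst h1 h2 h3 g1 g2 g3 <;> ring

theorem R'_symm (x y : D K) : R' x y → R' y x := by
  obtain ⟨t, p, q, r, s, a, b⟩ := x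
  obtain ⟨t', p', q', r', s', a', b'⟩ := y
  simp only [R']
  rintro (h | h | ⟨h, (h' | h')⟩ | ⟨h, (h' | h')⟩ | ⟨h, h'⟩ | ⟨h, h'⟩) <;> grind

theorem R'_zero (x : D K) : R' x 0 := by
  obtain ⟨t, p, q, r, s, a, b⟩ := x
  right; left
  simp

theorem R'_smul (k : K) (x y : D K) : R' x y → R' x (k • y) := by
  obtain ⟨t, p, q, r, s, a, b⟩ := x
  obtain ⟨t', p', q', r', s', a', b'⟩ := y
  simp only [R', Prod.smul_mk, smul_eq_mul]
  rintro (h | h | ⟨h, (h' | h')⟩ | ⟨h, (h' | h')⟩ | ⟨h, h'⟩ | ⟨h, h'⟩) <;> grind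

theorem R'_add (x y z : D K) : R' x y → R' x z → R' x (y + z) := by
  obtain ⟨t, p, q, r, s, a, b⟩ := x
  obtain ⟨t', p', q', r', s', a', b'⟩ := y
  obtain ⟨t'', p'', q'', r'', s'', a'', b''⟩ := z
  rw [Prod.mk_add_mk, Prod.mk_add_mk, Prod.mk_add_mk, Prod.mk_add_mk, Prod.mk_add_mk,
    Prod.mk_add_mk]
  simp only [R']
  rintro (h | h | ⟨h, (h' | h')⟩ | ⟨h, (h' | h')⟩ | ⟨h, h'⟩ | ⟨h, h'⟩) <;>
  rintro (g | g | ⟨g, (g' | g')⟩ | ⟨g, (g' | g')⟩ | ⟨g, g'⟩ | ⟨g, g'⟩) <;>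
  grind

theorem R'_irrefl (x : D K) : R' x x → x = 0 := by
  obtain ⟨t, p, q, r, s, a, b⟩ := x
  simp only [R', Prod.mk_eq_zero]
  grind

/-! ### The counterexample -/

/-- The relation on `E = K^7 × K^7`. -/
def Rel (x y : D K × D K) : Prop :=
  R' x.1 y.1 ∧ R' x.2 y.2 ∧ R x.1 y.2 ∧ R x.2 y.1

theorem Rel_symm (x y : D K × D K) (h : Rel x y) : Rel y x :=
  ⟨R'_symm _ _ h.1, R'_symm _ _ h.2.1, R_symm _ _ h.2.2.2, R_symm _ _ h.2.2.1⟩

theorem Rel_zero (x : D K × D K) : Rel x 0 := ⟨R'_zero _, R'_zero _, R_zero _, R_zero _⟩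

theorem Rel_add (x y z : D K × D K) (h : Rel x y) (g : Rel x z) : Rel x (y + z) :=
  ⟨R'_add _ _ _ h.1 g.1, R'_add _ _ _ h.2.1 g.2.1, R_add _ _ _ h.2.2.1 g.2.2.1,
    R_add _ _ _ h.2.2.2 g.2.2.2⟩

theorem Rel_smul (k : K) (x y : D K × D K) (h : Rel x y) : Rel x (k • y) :=
  ⟨R'_smul _ _ _ h.1, R'_smul _ _ _ h.2.1, R_smul _ _ _ h.2.2.1, R_smul _ _ _ h.2.2.2⟩

theorem Rel_irrefl (x : D K × D K) (h : Rel x x) : x = 0 :=
  Prod.ext (R'_irrefl _ h.1) (R'_irrefl _ h.2.1)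

/-- The vector `(1,0,0,0,0,0,0)`. -/
def y₀ : D K := (1, 0, 0, 0, 0, 0, 0)
/-- The vector `(0,0,0,0,0,1,0)`. -/
def a₁ : D K := (0, 0, 0, 0, 0, 1, 0)
/-- The vector `(0,0,0,0,0,0,1)`. -/
def a₂ : D K := (0, 0, 0, 0, 0, 0, 1)

/-- Six vectors of `K^7`, first copy. -/
def u₁ : Fin 6 → D K :=
  ![(0, 1, 1, 0, 0, 0, 0), (1, 0, -1, 0, 0, 0, 0), (1, -1, 0, 0, 0, 0, 0),
    (0, 1, 0, 0, 0, 0, 0), (0, 0, 1, 0, 0, 0, 0), (1, -1, -1, 0, 0, 0, 0)]

/-- Six vectors of `K^7`, second copy. -/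
def u₂ : Fin 6 → D K :=
  ![(0, 0, 0, 1, 1, 0, 0), (1, 0, 0, 0, -1, 0, 0), (1, 0, 0, -1, 0, 0, 0),
    (0, 0, 0, 1, 0, 0, 0), (0, 0, 0, 0, 1, 0, 0), (1, 0, 0, -1, -1, 0, 0)]

/-- Six signs. -/
def sg : Fin 6 → K := ![1, 1, 1, -1, -1, -1]

theorem R_self₁ (t p q : K) (h : ¬ (p = 0 ∧ q = 0)) :
    R (t, p, q, 0, 0, 0, 0) (t, p, q, 0, 0, 0, 0) := by
  right; right; left
  exact ⟨⟨rfl, rfl, rfl, rfl, rfl, rfl⟩,
    Or.inr (Or.inr ⟨h, 1, one_ne_zero, by simp, by simp, by simp⟩)⟩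

theorem R_self₂ (t r s : K) (h : ¬ (r = 0 ∧ s = 0)) :
    R (t, 0, 0, r, s, 0, 0) (t, 0, 0, r, s, 0, 0) := by
  right; right; right; left
  exact ⟨⟨rfl, rfl, rfl, rfl, rfl, rfl⟩,
    Or.inr (Or.inr ⟨h, 1, one_ne_zero, by simp, by simp, by simp⟩)⟩

theorem R_u₁ (i : Fin 6) : R (u₁ i : D K) (u₁ i) := by
  fin_cases i <;> exact R_self₁ _ _ _ (by simp)

theorem R_u₂ (i : Fin 6) : R (u₂ i : D K) (u₂ i) := by
  fin_cases i <;> exact R_self₂ _ _ _ (by simp)

theorem R_a₁_aux (t p q a : K) : R (a₁ : D K) (t, p, q, 0, 0, a, 0) := by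
  right; right; left
  exact ⟨⟨rfl, rfl, rfl, rfl, rfl, rfl⟩, Or.inl ⟨rfl, rfl, rfl⟩⟩

theorem R_a₂_aux (t r s b : K) : R (a₂ : D K) (t, 0, 0, r, s, 0, b) := by
  right; right; right; left
  exact ⟨⟨rfl, rfl, rfl, rfl, rfl, rfl⟩, Or.inl ⟨rfl, rfl, rfl⟩⟩

theorem R'_a₁_aux (t p q : K) : R' (a₁ : D K) (t, p, q, 0, 0, 0, 0) := by
  right; right; left
  exact ⟨⟨rfl, rfl, rfl, rfl, rfl, rfl⟩, Or.inl ⟨rfl, rfl, rfl, rfl⟩⟩

theorem R'_a₂_aux (t r s : K) : R' (a₂ : D K) (t, 0, 0, r, s, 0, 0) := by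
  right; right; right; left
  exact ⟨⟨rfl, rfl, rfl, rfl, rfl, rfl⟩, Or.inl ⟨rfl, rfl, rfl, rfl⟩⟩

theorem R'_a₁_u₁ (i : Fin 6) : R' (a₁ : D K) (u₁ i) := by
  fin_cases i <;> exact R'_a₁_aux _ _ _

theorem R'_a₂_u₂ (i : Fin 6) : R' (a₂ : D K) (u₂ i) := by
  fin_cases i <;> exact R'_a₂_aux _ _ _

theorem R_a₁_u₁ (i : Fin 6) : R (a₁ : D K) (u₁ i) := by
  fin_cases i <;> exact R_a₁_aux _ _ _ _

theorem R_a₂_u₂ (i : Fin 6) : R (a₂ : D K) (u₂ i) := by
  fin_cases i <;> exact R_a₂_aux _ _ _ _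

theorem R_a₁ : R (a₁ : D K) a₁ := R_a₁_aux _ _ _ _

theorem R_a₂ : R (a₂ : D K) a₂ := R_a₂_aux _ _ _ _

/-- The polar set of `a₁ + a₂` consists of the multiples of `y₀`. -/
theorem R_sum {x : D K} (h : R (a₁ + a₂) x) : ∃ c : K, x = c • y₀ := by
  obtain ⟨t, p, q, r, s, a, b⟩ := x
  refine ⟨t, ?_⟩
  simp [R, a₁, a₂, y₀] at h ⊢
  grind

theorem R'_sum {x : D K} (h : R' (a₁ + a₂) x) : ∃ c : K, x = c • y₀ := by
  obtain ⟨t, p, q, r, s, a, b⟩ := x
  refine ⟨t, ?_⟩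
  simp [R', a₁, a₂, y₀] at h ⊢
  grind

theorem R_y₀ {c d : K} (h : R (c • y₀ : D K) (d • y₀)) : c = 0 ∨ d = 0 := by
  simp [R, y₀] at h
  grind

theorem R'_y₀ {c d : K} (h : R' (c • y₀ : D K) (d • y₀)) : c = 0 ∨ d = 0 := by
  simp [R', y₀] at h
  grind

theorem Rel_LL {x y : D K} (h : R' x y) : Rel (x, 0) (y, 0) :=
  ⟨h, R'_zero _, R_zero _, R_symm _ _ (R_zero _)⟩

theorem Rel_RR {x y : D K} (h : R' x y) : Rel (0, x) (0, y) :=
  ⟨R'_zero _, h, R_symm _ _ (R_zero _), R_zero _⟩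

theorem Rel_LR {x y : D K} (h : R x y) : Rel (x, 0) (0, y) :=
  ⟨R'_zero _, R'_symm _ _ (R'_zero _), h, R_zero _⟩

theorem Rel_RL {x y : D K} (h : R x y) : Rel (0, x) (y, 0) :=
  Rel_symm _ _ (Rel_LR (R_symm _ _ h))

/-- The subspace of the vectors `(x, 0)`. -/
def left (K : Type u) [Field K] : Submodule K (D K × D K) := Submodule.prod ⊤ ⊥

/-- The subspace of the vectors `(0, x)`. -/
def right (K : Type u) [Field K] : Submodule K (D K × D K) := Submodule.prod ⊥ ⊤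

theorem isCompl_left_right : IsCompl (left K) (right K) := by
  constructor
  · rw [Submodule.disjoint_def]
    rintro ⟨x, y⟩ h1 h2
    simp only [left, right, Submodule.mem_prod, Submodule.mem_top, Submodule.mem_bot, true_and,
      and_true] at h1 h2
    simp [h1, h2]
  · rw [codisjoint_iff, eq_top_iff]
    rintro ⟨x, y⟩ -
    refine Submodule.mem_sup.2 ⟨(x, 0), ?_, (0, y), ?_, by simp⟩
    · simp [left]
    · simp [right]

/-- `x ↦ (x, 0)` as a map into `V`. -/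
def L {V : Submodule K (D K × D K)} (hV : left K ≤ V) : D K →ₗ[K] V :=
  (LinearMap.inl K (D K) (D K)).codRestrict V (fun d => hV (by simp [left]))

/-- `x ↦ (0, x)` as a map into `W`. -/
def Rt {W : Submodule K (D K × D K)} (hW : right K ≤ W) : D K →ₗ[K] W :=
  (LinearMap.inr K (D K) (D K)).codRestrict W (fun d => hW (by simp [right]))

theorem coe_L {V : Submodule K (D K × D K)} (hV : left K ≤ V) (x : D K) :
    (L hV x : D K × D K) = (x, 0) := rfl

theorem coe_Rt {W : Submodule K (D K × D K)} (hW : right K ≤ W) (x : D K) :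
    (Rt hW x : D K × D K) = (0, x) := rfl

theorem tensor_identity {A B : Type u} [AddCommGroup A] [AddCommGroup B] [Module K A] [Module K B]
    (y e f : A) (y' e' f' : B) :
    (e + f) ⊗ₜ[K] (e' + f') + (y - f) ⊗ₜ[K] (y' - f') + (y - e) ⊗ₜ[K] (y' - e') - e ⊗ₜ[K] e' -
      f ⊗ₜ[K] f' - (y - e - f) ⊗ₜ[K] (y' - e' - f') = y ⊗ₜ[K] y' := by
  simp only [TensorProduct.add_tmul, TensorProduct.tmul_add, TensorProduct.sub_tmul,
    TensorProduct.tmul_sub]
  abel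

theorem sum_u₁ {A B : Type u} [AddCommGroup A] [AddCommGroup B] [Module K A] [Module K B]
    (l : D K →ₗ[K] A) (r : D K →ₗ[K] B) :
    ∑ i : Fin 6, ((sg i : K) • l (u₁ i)) ⊗ₜ[K] r (u₁ i) = l y₀ ⊗ₜ[K] r y₀ := by
  rw [← tensor_identity (l y₀) (l (0, 1, 0, 0, 0, 0, 0)) (l (0, 0, 1, 0, 0, 0, 0)) (r y₀)
    (r (0, 1, 0, 0, 0, 0, 0)) (r (0, 0, 1, 0, 0, 0, 0))]
  simp only [Fin.sum_univ_six, ← map_add, ← map_sub]
  simp [u₁, sg, y₀, TensorProduct.neg_tmul, sub_eq_add_neg]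

theorem sum_u₂ {A B : Type u} [AddCommGroup A] [AddCommGroup B] [Module K A] [Module K B]
    (l : D K →ₗ[K] A) (r : D K →ₗ[K] B) :
    ∑ i : Fin 6, ((sg i : K) • l (u₂ i)) ⊗ₜ[K] r (u₂ i) = l y₀ ⊗ₜ[K] r y₀ := by
  rw [← tensor_identity (l y₀) (l (0, 0, 0, 1, 0, 0, 0)) (l (0, 0, 0, 0, 1, 0, 0)) (r y₀)
    (r (0, 0, 0, 1, 0, 0, 0)) (r (0, 0, 0, 0, 1, 0, 0))]
  simp only [Fin.sum_univ_six, ← map_add, ← map_sub]
  simp [u₂, sg, y₀, TensorProduct.neg_tmul, sub_eq_add_neg]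

/-- Contraction of the second factor with a linear form. -/
noncomputable def ev {V W : Submodule K (D K × D K)} (φ : W →ₗ[K] K) :
    LocTensor K Rel V W →ₗ[K] V :=
  (TensorProduct.rid K V).toLinearMap ∘ₗ (φ.lTensor V) ∘ₗ incl K Rel V W

theorem ev_tmul {V W : Submodule K (D K × D K)} (φ : W →ₗ[K] K) (v : V) (w : W)
    (h : Rel (v : D K × D K) (w : D K × D K)) :
    ev φ (tmul K v w h) = φ w • v := by
  simp [ev, incl_tmul]

/-- The sum of the last two coordinates, as a linear form on `K^7`. -/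
def formAB (K : Type u) [Field K] : D K →ₗ[K] K where
  toFun x := x.2.2.2.2.2.1 + x.2.2.2.2.2.2
  map_add' x y := by simp only [Prod.fst_add, Prod.snd_add]; ring
  map_smul' c x := by simp only [Prod.smul_fst, Prod.smul_snd, smul_eq_mul, RingHom.id_apply]; ring

/-- The first coordinate, as a linear form on `K^7`. -/
def formT (K : Type u) [Field K] : D K →ₗ[K] K := LinearMap.fst K _ _

theorem rel_cases {x y : D K × D K} (hx : Rel (a₁ + a₂, 0) x) (hy : Rel (a₁ + a₂, 0) y)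
    (h : Rel x y) : x = 0 ∨ y = 0 := by
  obtain ⟨c, hc⟩ := R'_sum hx.1
  obtain ⟨d, hd⟩ := R_sum hx.2.2.1
  obtain ⟨c', hc'⟩ := R'_sum hy.1
  obtain ⟨d', hd'⟩ := R_sum hy.2.2.1
  obtain ⟨h1, h2, h3, h4⟩ := h
  rw [hc, hc'] at h1
  rw [hd, hd'] at h2
  rw [hc, hd'] at h3
  rw [hd, hc'] at h4
  replace h1 := R'_y₀ h1
  replace h2 := R'_y₀ h2
  replace h3 := R_y₀ h3
  replace h4 := R_y₀ h4
  by_cases hc0 : c = 0
  · by_cases hd0 : d = 0
    · left
      refine Prod.ext ?_ ?_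
      · rw [hc, hc0, zero_smul]; rfl
      · rw [hd, hd0, zero_smul]; rfl
    · right
      have e1 : d' = 0 := h2.resolve_left hd0
      have e2 : c' = 0 := h4.resolve_left hd0
      refine Prod.ext ?_ ?_
      · rw [hc', e2, zero_smul]; rfl
      · rw [hd', e1, zero_smul]; rfl
  · right
    have e1 : c' = 0 := h1.resolve_left hc0
    have e2 : d' = 0 := h3.resolve_left hc0
    refine Prod.ext ?_ ?_
    · rw [hc', e1, zero_smul]; rfl
    · rw [hd', e2, zero_smul]; rfl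

theorem not_closed {V W : Submodule K (D K × D K)} (hV : left K ≤ V) (hW : right K ≤ W) :
    ∃ S : Set (LocTensor K Rel V W), ∃ X₁ ∈ polar (QuotLoc K Rel V W) S,
      ∃ X₂ ∈ polar (QuotLoc K Rel V W) S, X₁ + X₂ ∉ polar (QuotLoc K Rel V W) S := by
  classical
  -- the pairs used in the two decompositions of the third tensor
  have hu₁ : ∀ i, Rel (((sg i : K) • L hV (u₁ i) : V) : D K × D K) (Rt hW (u₁ i)) := by
    intro i
    rw [Submodule.coe_smul, coe_L, coe_Rt]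
    exact Rel_symm _ _ (Rel_smul _ _ _ (Rel_RL (R_u₁ i)))
  have hu₂ : ∀ i, Rel (((sg i : K) • L hV (u₂ i) : V) : D K × D K) (Rt hW (u₂ i)) := by
    intro i
    rw [Submodule.coe_smul, coe_L, coe_Rt]
    exact Rel_symm _ _ (Rel_smul _ _ _ (Rel_RL (R_u₂ i)))
  have ha₁ : Rel (L hV a₁ : D K × D K) (Rt hW a₁) := Rel_LR R_a₁
  have ha₂ : Rel (L hV a₂ : D K × D K) (Rt hW a₂) := Rel_LR R_a₂
  set Y : LocTensor K Rel V W := ∑ i : Fin 6, tmul K ((sg i : K) • L hV (u₁ i)) (Rt hW (u₁ i)) (hu₁ i) with hYdef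
  have hYincl : incl K Rel V W Y = L hV y₀ ⊗ₜ[K] Rt hW y₀ := by
    rw [hYdef, map_sum, ← sum_u₁ (L hV) (Rt hW)]
    exact Finset.sum_congr rfl fun i _ => incl_tmul K _ _ _
  have hY₂ : Y = ∑ i : Fin 6, tmul K ((sg i : K) • L hV (u₂ i)) (Rt hW (u₂ i)) (hu₂ i) := by
    apply incl_injective
    rw [hYincl, map_sum, ← sum_u₂ (L hV) (Rt hW)]
    exact Finset.sum_congr rfl fun i _ => (incl_tmul K _ _ _).symm
  refine ⟨{Y}, tmul K (L hV a₁) (Rt hW a₁) ha₁, ?_, tmul K (L hV a₂) (Rt hW a₂) ha₂, ?_, ?_⟩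
  · rintro _ rfl
    refine ⟨1, 6, fun _ => L hV a₁, fun _ => Rt hW a₁, fun i => sg i • L hV (u₁ i),
      fun i => Rt hW (u₁ i), fun _ => ha₁, hu₁, by simp, hYdef, fun _ i => ⟨?_, ?_, ?_, ?_⟩⟩
    · exact Rel_smul _ _ _ (Rel_LL (R'_a₁_u₁ i))
    · exact Rel_LR (R_a₁_u₁ i)
    · exact Rel_smul _ _ _ (Rel_RL (R_a₁_u₁ i))
    · exact Rel_RR (R'_a₁_u₁ i)
  · rintro _ rfl
    refine ⟨1, 6, fun _ => L hV a₂, fun _ => Rt hW a₂, fun i => sg i • L hV (u₂ i),
      fun i => Rt hW (u₂ i), fun _ => ha₂, hu₂, by simp, hY₂, fun _ i => ⟨?_, ?_, ?_, ?_⟩⟩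
    · exact Rel_smul _ _ _ (Rel_LL (R'_a₂_u₂ i))
    · exact Rel_LR (R_a₂_u₂ i)
    · exact Rel_smul _ _ _ (Rel_RL (R_a₂_u₂ i))
    · exact Rel_RR (R'_a₂_u₂ i)
  · intro hmem
    obtain ⟨m, n, v, w, v', w', h, h', hX, hY, hall⟩ := hmem Y rfl
    -- the left factor span contains the sum of the two left vectors
    have key : L hV (a₁ + a₂) =
        ∑ i, ((formAB K ∘ₗ LinearMap.snd K _ _) ∘ₗ W.subtype) (w i) • v i := by
      have e := congrArg (ev ((formAB K ∘ₗ LinearMap.snd K _ _) ∘ₗ W.subtype)) hX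
      rw [map_add, ev_tmul, ev_tmul, map_sum] at e
      simp only [ev_tmul] at e
      rw [← e, map_add]
      simp [coe_Rt, formAB, a₁, a₂]
    have keyE : ((a₁ + a₂, 0) : D K × D K) =
        ∑ i, ((formAB K ∘ₗ LinearMap.snd K _ _) ∘ₗ W.subtype) (w i) • (v i : D K × D K) := by
      have e := congrArg (Subtype.val) key
      rw [coe_L] at e
      rw [e]
      simp
    have hv' : ∀ j, Rel (a₁ + a₂, 0) (v' j : D K × D K) := by
      intro j
      apply Rel_symm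
      rw [keyE]
      exact sum_mem_rel Rel_zero Rel_add Rel_smul _ _ _ _
        (fun i => Rel_symm _ _ (hall i j).1)
    have hw' : ∀ j, Rel (a₁ + a₂, 0) (w' j : D K × D K) := by
      intro j
      apply Rel_symm
      rw [keyE]
      exact sum_mem_rel Rel_zero Rel_add Rel_smul _ _ _ _
        (fun i => Rel_symm _ _ (hall i j).2.1)
    have hzero : ∀ j, v' j = 0 ∨ w' j = 0 := by
      intro j
      rcases rel_cases (hv' j) (hw' j) (h' j) with e | e
      · exact Or.inl (Subtype.ext e)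
      · exact Or.inr (Subtype.ext e)
    have hY0 : ev ((formT K ∘ₗ LinearMap.snd K _ _) ∘ₗ W.subtype) Y = 0 := by
      rw [hY, map_sum]
      refine Finset.sum_eq_zero fun j _ => ?_
      rw [ev_tmul]
      rcases hzero j with e | e
      · rw [e, smul_zero]
      · rw [e, map_zero, zero_smul]
    have hY1 : ev ((formT K ∘ₗ LinearMap.snd K _ _) ∘ₗ W.subtype) Y = L hV y₀ := by
      simp only [ev, LinearMap.comp_apply, hYincl]
      simp [coe_Rt, formT, y₀]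
    rw [hY1] at hY0
    have e := congrArg (fun z : V => (z : D K × D K).1.1) hY0
    simp [coe_L, y₀] at e

end Aux

/-- **Negative answer.** For every field `K` there are a `14`-dimensional locality vector space
`(E, T)` over `K` with `T x x` only for `x = 0`, and complementary subspaces `V₀, W₀` of `E`, such that
for all linear subspaces `V ⊇ V₀` and `W ⊇ W₀` of `E` (in particular for `(V, W) = (V₀, W₀)` and for
`V = W = E`) the locality tensor product `V ⊗_T W` with the quotient locality relation is not a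
locality vector space; indeed some subset of `V ⊗_T W` has a polar set that is not closed under
addition. -/
theorem result (K : Type u) [Field K] :
    ∃ (E : Type u) (_ : AddCommGroup E) (_ : Module K E) (T : E → E → Prop)
      (V₀ W₀ : Submodule K E),
      IsLocalityVectorSpace K T ∧ Module.finrank K E = 14 ∧ (∀ x, T x x → x = 0) ∧
      IsCompl V₀ W₀ ∧
      ∀ V W : Submodule K E, V₀ ≤ V → W₀ ≤ W →
        ¬ IsLocalityVectorSpace K (QuotLoc K T V W) ∧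
        ∃ S : Set (LocTensor K T V W), ∃ X₁ ∈ polar (QuotLoc K T V W) S,
          ∃ X₂ ∈ polar (QuotLoc K T V W) S, X₁ + X₂ ∉ polar (QuotLoc K T V W) S := by
  refine ⟨D K × D K, inferInstance, inferInstance, Rel, left K, right K,
    isLocality_of Rel_symm Rel_zero Rel_add Rel_smul, ?_, Rel_irrefl, isCompl_left_right,
    fun V W hV hW => ?_⟩
  · simp [Module.finrank_prod]
  · obtain ⟨S, X₁, h₁, X₂, h₂, h⟩ := not_closed hV hW
    refine ⟨fun hloc => ?_, S, X₁, h₁, X₂, h₂, h⟩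
    obtain ⟨P, hP⟩ := hloc.polar_subspace S
    rw [← hP] at h₁ h₂ h
    exact h (P.add_mem h₁ h₂)

end Pool.Agent.Results.MP_16c542_al.LocalityTensor
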